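import Pool.Agent.Helper366.IV.CP

set_option autoImplicit false

namespace Pool.Agent.H947Z.HS

open MeasureTheory Set Filter Topology Metric Complex
open scoped ContDiff

/-- the weight -/
noncomputable def sw (w : ℂ) : ℝ := Real.sqrt (1 + ‖w‖)

lemma sw_sq (w : ℂ) : sw w ^ 2 = 1 + ‖w‖ := Real.sq_sqrt (by positivity)

lemma one_le_sw (w : ℂ) : 1 ≤ sw w := Real.one_le_sqrt.2 (by linarith [norm_nonneg w])

lemma sw_pos (w : ℂ) : 0 < sw w := lt_of_lt_of_le one_pos (one_le_sw w)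

lemma continuous_sw : Continuous sw := by unfold sw; fun_prop

lemma le_of_sq_le_sq₀' {a b : ℝ} (hb : 0 ≤ b) (h : a ^ 2 ≤ b ^ 2) : a ≤ b :=
  (abs_le_of_sq_le_sq' h hb).2

/-- the integrable majorant -/
noncomputable def Ga (a : ℝ) (η : ℂ) : ℝ := (Real.sqrt ‖η‖ ^ 3 * (a + ‖η‖))⁻¹

lemma Ga_nonneg {a : ℝ} (ha : 0 ≤ a) (η : ℂ) : 0 ≤ Ga a η := by unfold Ga; positivity

lemma sqrt_cube (x : ℝ) (hx : 0 ≤ x) : Real.sqrt x ^ 3 = x ^ ((3 : ℝ) / 2) := by
  rw [Real.sqrt_eq_rpow, ← Real.rpow_natCast, ← Real.rpow_mul hx]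
  norm_num

lemma integrable_Ga_one : Integrable (Ga 1) := by
  have hm : AEStronglyMeasurable (Ga 1) volume := by
    apply Measurable.aestronglyMeasurable
    unfold Ga
    fun_prop
  rw [← integrableOn_univ, ← union_compl_self (ball (0 : ℂ) 1)]
  refine IntegrableOn.union ?_ ?_
  · refine integrableOn_ball_of_norm_le_rpow (C := 1) (α := 3 / 2) (by simp)
      (by simp; norm_num) (ae_of_all _ fun η => ?_) hm
    rw [Real.norm_of_nonneg (Ga_nonneg zero_le_one η), one_mul, Real.rpow_neg (norm_nonneg _),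
      ← sqrt_cube _ (norm_nonneg _), Ga, mul_inv]
    refine mul_le_of_le_one_right (by positivity) ?_
    exact inv_le_one_of_one_le₀ (by linarith [norm_nonneg η])
  · have h1 : Integrable (fun x : ℂ => 8 * (1 + ‖x‖) ^ (-((5 : ℝ) / 2))) volume :=
      (integrable_one_add_norm (by simp; norm_num)).const_mul 8
    refine Integrable.mono' h1.integrableOn hm.restrict ?_
    filter_upwards [ae_restrict_mem measurableSet_ball.compl] with η hη
    have h2 : 1 ≤ ‖η‖ := by simpa using hη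
    rw [Real.norm_of_nonneg (Ga_nonneg zero_le_one η), Real.rpow_neg (by positivity)]
    have h3 : (1 + ‖η‖) ^ ((5 : ℝ) / 2) = sw η ^ 3 * (1 + ‖η‖) := by
      rw [sw, sqrt_cube _ (by positivity), ← Real.rpow_add_one (by positivity)]
      norm_num
    have h4 : sw η ≤ 2 * Real.sqrt ‖η‖ := by
      rw [sw, Real.sqrt_le_iff]
      refine ⟨by positivity, ?_⟩
      rw [mul_pow, Real.sq_sqrt (norm_nonneg _)]
      linarith
    have h5 : 0 < Real.sqrt ‖η‖ := Real.sqrt_pos.2 (by linarith)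
    have h6 := sw_pos η
    rw [h3, Ga, ← div_eq_mul_inv, inv_eq_one_div, div_le_div_iff₀ (by positivity) (by positivity)]
    have h7 : sw η ^ 3 ≤ (2 * Real.sqrt ‖η‖) ^ 3 := by gcongr
    nlinarith

lemma Ga_scale {a : ℝ} (ha : 0 < a) (η : ℂ) :
    Ga a η = (Real.sqrt a ^ 5)⁻¹ * Ga 1 (a⁻¹ • η) := by
  have h1 : ‖a⁻¹ • η‖ = ‖η‖ / a := by
    rw [norm_smul, Real.norm_of_nonneg (inv_pos.2 ha).le]; ring
  have h2 : 0 < Real.sqrt a := Real.sqrt_pos.2 ha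
  have h3 : Real.sqrt a ^ 2 = a := Real.sq_sqrt ha.le
  unfold Ga
  rw [h1, Real.sqrt_div (norm_nonneg _), ← mul_inv]
  congr 1
  set q := Real.sqrt a
  rw [← h3]
  field_simp

lemma integrable_Ga {a : ℝ} (ha : 0 < a) : Integrable (Ga a) := by
  have := (integrable_Ga_one.comp_smul (inv_pos.2 ha).ne').const_mul (Real.sqrt a ^ 5)⁻¹
  exact this.congr (ae_of_all _ fun η => (Ga_scale ha η).symm)

/-- the constant -/
noncomputable def C0 : ℝ := ∫ η, Ga 1 η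

lemma C0_nonneg : 0 ≤ C0 := integral_nonneg (Ga_nonneg zero_le_one)

lemma integral_Ga {a : ℝ} (ha : 0 < a) : ∫ η, Ga a η = C0 / Real.sqrt a := by
  simp_rw [Ga_scale ha]
  rw [integral_const_mul, Measure.integral_comp_inv_smul_of_nonneg _ _ ha.le]
  have h2 : 0 < Real.sqrt a := Real.sqrt_pos.2 ha
  have h3 : Real.sqrt a ^ 2 = a := Real.sq_sqrt ha.le
  simp only [Complex.finrank_real_complex, smul_eq_mul]
  change _ * (_ * C0) = _
  set q := Real.sqrt a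
  rw [← h3]
  field_simp

lemma kernel_le (w η : ℂ) (h1 : η ≠ 0) (h2 : w - η ≠ 0) :
    (sw (w - η) ^ 3)⁻¹ * ‖η‖⁻¹ ≤ 5 * (Ga (1 + ‖w‖) (w - η) + Ga (1 + ‖w‖) η) := by
  have ha : 0 < 1 + ‖w‖ := by positivity
  have n1 : 0 < ‖η‖ := norm_pos_iff.2 h1
  have n2 : 0 < ‖w - η‖ := norm_pos_iff.2 h2
  have g1 := Ga_nonneg ha.le (w - η)
  have g2 := Ga_nonneg ha.le η
  have s1 := sw_sq (w - η)
  have s2 := sw_pos (w - η)
  have t1 : ‖w‖ ≤ ‖w - η‖ + ‖η‖ := by simpa using norm_add_le (w - η) η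
  have t2 : ‖w - η‖ ≤ ‖w‖ + ‖η‖ := norm_sub_le w η
  set s := sw (w - η)
  by_cases h : ‖η‖ ≤ (1 + ‖w‖) / 2
  · have : (s ^ 3)⁻¹ * ‖η‖⁻¹ ≤ 5 * Ga (1 + ‖w‖) η := by
      have q1 : 0 < Real.sqrt ‖η‖ := Real.sqrt_pos.2 n1
      have q2 : Real.sqrt ‖η‖ ^ 2 = ‖η‖ := Real.sq_sqrt n1.le
      unfold Ga
      set q := Real.sqrt ‖η‖
      have q3 : q ≤ s := by
        refine le_of_sq_le_sq₀' s2.le ?_
        nlinarith
      rw [← mul_inv, ← div_eq_mul_inv, inv_eq_one_div, div_le_div_iff₀ (by positivity)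
        (by positivity)]
      have q4 : 1 + ‖w‖ + ‖η‖ ≤ 3 * s ^ 2 := by linarith
      calc 1 * (q ^ 3 * (1 + ‖w‖ + ‖η‖)) = q ^ 2 * (q * (1 + ‖w‖ + ‖η‖)) := by ring
        _ ≤ q ^ 2 * (s * (3 * s ^ 2)) := by gcongr
        _ = 3 * (s ^ 3 * ‖η‖) := by rw [q2]; ring
        _ ≤ 5 * (s ^ 3 * ‖η‖) := by gcongr; norm_num
    linarith
  · have : (s ^ 3)⁻¹ * ‖η‖⁻¹ ≤ 5 * Ga (1 + ‖w‖) (w - η) := by
      have q1 : 0 < Real.sqrt ‖w - η‖ := Real.sqrt_pos.2 n2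
      have q2 : Real.sqrt ‖w - η‖ ^ 2 = ‖w - η‖ := Real.sq_sqrt n2.le
      unfold Ga
      set q := Real.sqrt ‖w - η‖
      have q3 : q ≤ s := by
        refine le_of_sq_le_sq₀' s2.le ?_
        nlinarith
      rw [← mul_inv, ← div_eq_mul_inv, inv_eq_one_div, div_le_div_iff₀ (by positivity)
        (by positivity)]
      have q4 : 1 + ‖w‖ + ‖w - η‖ ≤ 5 * ‖η‖ := by linarith
      calc 1 * (q ^ 3 * (1 + ‖w‖ + ‖w - η‖)) = q ^ 3 * (1 + ‖w‖ + ‖w - η‖) := by ring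
        _ ≤ s ^ 3 * (5 * ‖η‖) := by gcongr
        _ = 5 * (s ^ 3 * ‖η‖) := by ring
    linarith

/-- the Cauchy transform -/
noncomputable def T (g : ℂ → ℂ) (w : ℂ) : ℂ := ∫ η, g (w - η) / η

lemma ae_ne2 (w : ℂ) : ∀ᵐ η : ℂ, η ≠ 0 ∧ w - η ≠ 0 := by
  have h1 : ∀ᵐ η : ℂ, η ≠ 0 := by simp [ae_iff, measure_singleton]
  have h2 : ∀ᵐ η : ℂ, η ≠ w := by simp [ae_iff, measure_singleton]
  filter_upwards [h1, h2] with η a b
  exact ⟨a, sub_ne_zero.2 b.symm⟩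

lemma integrable_maj (w : ℂ) :
    Integrable (fun η => 5 * (Ga (1 + ‖w‖) (w - η) + Ga (1 + ‖w‖) η)) := by
  have ha : 0 < 1 + ‖w‖ := by positivity
  exact (((integrable_Ga ha).comp_sub_left w).add (integrable_Ga ha)).const_mul 5

lemma T_ae_le {g : ℂ → ℂ} {A : ℝ} (hA : 0 ≤ A) (hg : ∀ y, ‖g y‖ ≤ A * (sw y ^ 3)⁻¹) (w : ℂ) :
    ∀ᵐ η : ℂ, ‖g (w - η) / η‖ ≤ A * (5 * (Ga (1 + ‖w‖) (w - η) + Ga (1 + ‖w‖) η)) := by
  filter_upwards [ae_ne2 w] with η hη
  rw [norm_div, div_eq_mul_inv]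
  calc ‖g (w - η)‖ * ‖η‖⁻¹ ≤ A * (sw (w - η) ^ 3)⁻¹ * ‖η‖⁻¹ := by gcongr; exact hg _
    _ = A * ((sw (w - η) ^ 3)⁻¹ * ‖η‖⁻¹) := by ring
    _ ≤ _ := mul_le_mul_of_nonneg_left (kernel_le w η hη.1 hη.2) hA

lemma T_integrable {g : ℂ → ℂ} (hc : Continuous g) {A : ℝ} (hA : 0 ≤ A)
    (hg : ∀ y, ‖g y‖ ≤ A * (sw y ^ 3)⁻¹) (w : ℂ) : Integrable (fun η => g (w - η) / η) := by
  refine Integrable.mono' ((integrable_maj w).const_mul A) ?_ (T_ae_le hA hg w)
  apply Measurable.aestronglyMeasurable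
  exact (hc.measurable.comp (measurable_const.sub measurable_id)).div measurable_id

lemma T_bound {g : ℂ → ℂ} {A : ℝ} (hA : 0 ≤ A) (hg : ∀ y, ‖g y‖ ≤ A * (sw y ^ 3)⁻¹) (w : ℂ) :
    ‖T g w‖ ≤ A * (10 * C0) / sw w := by
  have ha : 0 < 1 + ‖w‖ := by positivity
  refine (norm_integral_le_of_norm_le ((integrable_maj w).const_mul A) (T_ae_le hA hg w)).trans ?_
  rw [integral_const_mul, integral_const_mul,
    integral_add ((integrable_Ga ha).comp_sub_left w) (integrable_Ga ha),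
    integral_sub_left_eq_self (Ga (1 + ‖w‖)) volume w, integral_Ga ha]
  apply le_of_eq
  unfold sw
  ring

lemma peetre {w w' η : ℂ} (hw : w' ∈ ball w 1) (hη : η ≠ 0) :
    ‖η‖⁻¹ * ((1 + ‖w' - η‖) ^ 2)⁻¹ ≤ (2 + ‖w‖) ^ 2 * Ga 1 η := by
  have n1 : 0 < ‖η‖ := norm_pos_iff.2 hη
  have q1 : 0 < Real.sqrt ‖η‖ := Real.sqrt_pos.2 n1
  have q2 : Real.sqrt ‖η‖ ^ 2 = ‖η‖ := Real.sq_sqrt n1.le
  have h1 : ‖w'‖ ≤ ‖w‖ + 1 := by
    have := norm_add_le (w' - w) w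
    rw [mem_ball, dist_eq_norm] at hw
    simp only [sub_add_cancel] at this
    linarith
  have h2 : ‖η‖ ≤ ‖w'‖ + ‖w' - η‖ := by simpa using norm_sub_le w' (w' - η)
  have n2 := norm_nonneg (w' - η)
  have n3 := norm_nonneg w
  have h3 : 1 + ‖η‖ ≤ (2 + ‖w‖) * (1 + ‖w' - η‖) := by nlinarith
  unfold Ga
  set q := Real.sqrt ‖η‖
  have q3 : q ≤ 1 + ‖η‖ := by nlinarith
  rw [← mul_inv, ← div_eq_mul_inv, inv_eq_one_div, div_le_div_iff₀ (by positivity)
    (by positivity)]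
  calc 1 * (q ^ 3 * (1 + ‖η‖)) = q ^ 2 * (q * (1 + ‖η‖)) := by ring
    _ ≤ q ^ 2 * ((1 + ‖η‖) * (1 + ‖η‖)) := by gcongr
    _ ≤ q ^ 2 * (((2 + ‖w‖) * (1 + ‖w' - η‖)) * ((2 + ‖w‖) * (1 + ‖w' - η‖))) := by gcongr
    _ = _ := by rw [q2]; ring

/-- admissible densities -/
structure Adm (g : ℂ → ℂ) (A : ℝ) : Prop where
  cd : ContDiff ℝ 1 g
  nonneg : 0 ≤ A
  b0 : ∀ y, ‖g y‖ ≤ A * ((1 + ‖y‖) ^ 2)⁻¹
  b1 : ∀ y, ‖fderiv ℝ g y‖ ≤ A * ((1 + ‖y‖) ^ 2)⁻¹

lemma sq_le_cube (y : ℂ) : ((1 + ‖y‖) ^ 2)⁻¹ ≤ (sw y ^ 3)⁻¹ := by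
  have h1 := sw_pos y
  have h2 := one_le_sw y
  rw [← sw_sq]
  apply inv_anti₀ (by positivity)
  nlinarith [pow_pos h1 3]

lemma Adm.b0' {g : ℂ → ℂ} {A : ℝ} (h : Adm g A) (y : ℂ) : ‖g y‖ ≤ A * (sw y ^ 3)⁻¹ :=
  (h.b0 y).trans (mul_le_mul_of_nonneg_left (sq_le_cube y) h.nonneg)

/-- the derivative of the Cauchy transform -/
noncomputable def DT (g : ℂ → ℂ) (w : ℂ) : ℂ →L[ℝ] ℂ := ∫ η : ℂ, η⁻¹ • fderiv ℝ g (w - η)

variable {g : ℂ → ℂ} {A : ℝ}

lemma Adm.meas (h : Adm g A) (w : ℂ) :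
    AEStronglyMeasurable (fun η : ℂ => η⁻¹ • fderiv ℝ g (w - η)) volume :=
  (measurable_inv.aestronglyMeasurable).smul
    (((h.cd.continuous_fderiv (by simp)).comp (continuous_const.sub continuous_id)).aestronglyMeasurable)

lemma Adm.dom (h : Adm g A) (w : ℂ) : ∀ᵐ η : ℂ, ∀ w' ∈ ball w 1,
    ‖η⁻¹ • fderiv ℝ g (w' - η)‖ ≤ A * ((2 + ‖w‖) ^ 2 * Ga 1 η) := by
  filter_upwards [ae_ne2 w] with η hη w' hw'
  rw [norm_smul, norm_inv]
  have := h.nonneg
  calc ‖η‖⁻¹ * ‖fderiv ℝ g (w' - η)‖ ≤ ‖η‖⁻¹ * (A * ((1 + ‖w' - η‖) ^ 2)⁻¹) := by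
        gcongr; exact h.b1 _
    _ = A * (‖η‖⁻¹ * ((1 + ‖w' - η‖) ^ 2)⁻¹) := by ring
    _ ≤ _ := mul_le_mul_of_nonneg_left (peetre hw' hη.1) this

lemma Adm.hasFDerivAt (h : Adm g A) (w : ℂ) : HasFDerivAt (T g) (DT g w) w := by
  refine hasFDerivAt_integral_of_dominated_of_fderiv_le (𝕜 := ℝ)
    (F := fun w η => g (w - η) / η) (F' := fun w η => η⁻¹ • fderiv ℝ g (w - η))
    (ball_mem_nhds w one_pos) (Eventually.of_forall fun w' =>
      (T_integrable h.cd.continuous h.nonneg h.b0' w').1)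
    (T_integrable h.cd.continuous h.nonneg h.b0' w) (h.meas w) (h.dom w)
    ((integrable_Ga_one.const_mul _).const_mul A) (ae_of_all _ fun η w' _ => ?_)
  have h1 : HasFDerivAt (fun w : ℂ => g (w - η)) (fderiv ℝ g (w' - η)) w' := by
    have := ((h.cd.differentiable (by simp)) (w' - η)).hasFDerivAt.comp w'
      ((hasFDerivAt_id w').sub_const η)
    rw [ContinuousLinearMap.comp_id] at this
    exact this
  have h2 := h1.const_smul η⁻¹
  refine h2.congr_of_eventuallyEq (Eventually.of_forall fun x => ?_)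
  simp [div_eq_inv_mul]

lemma Adm.continuous_DT (h : Adm g A) : Continuous (DT g) := by
  rw [continuous_iff_continuousAt]
  intro w
  refine continuousAt_of_dominated (Eventually.of_forall fun w' => h.meas w') ?_
    ((integrable_Ga_one.const_mul ((2 + ‖w‖) ^ 2)).const_mul A) (ae_of_all _ fun η => ?_)
  · filter_upwards [ball_mem_nhds w one_pos] with w' hw'
    filter_upwards [h.dom w] with η hη using hη w' hw'
  · exact (((h.cd.continuous_fderiv (by simp)).comp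
      (continuous_id.sub continuous_const)).const_smul η⁻¹).continuousAt

lemma Adm.contDiff_T (h : Adm g A) : ContDiff ℝ 1 (T g) :=
  contDiff_one_iff_hasFDerivAt.2 ⟨DT g, h.continuous_DT, h.hasFDerivAt⟩

lemma Adm.pompeiu (h : Adm g A) (z : ℂ) :
    ∫ η : ℂ, (fderiv ℝ g (z - η) 1 + I * fderiv ℝ g (z - η) I) / 2 / η = Real.pi * g z := by
  let b : ContDiffBump (0 : ℂ) := ⟨1, 2, one_pos, one_lt_two⟩
  have hb : ContDiff ℝ 1 b := b.contDiff
  obtain ⟨Cb, hCb⟩ := (b.hasCompactSupport.fderiv ℝ).exists_bound_of_continuous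
    (hb.continuous_fderiv (by simp))
  have hCb0 : 0 ≤ Cb := (norm_nonneg _).trans (hCb 0)
  let χ : ℕ → ℂ → ℝ := fun n y => b (((n : ℝ) + 1)⁻¹ • y)
  have hχ : ∀ n, ContDiff ℝ 1 (χ n) := fun n => hb.comp (contDiff_id.const_smul _)
  have hχs : ∀ n, HasCompactSupport (χ n) := fun n =>
    b.hasCompactSupport.comp_smul (by positivity)
  have hχd : ∀ n y, ‖fderiv ℝ (χ n) y‖ ≤ Cb := by
    intro n y
    have h1 : HasFDerivAt (χ n) ((fderiv ℝ b (((n : ℝ) + 1)⁻¹ • y)).comp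
        (((n : ℝ) + 1)⁻¹ • ContinuousLinearMap.id ℝ ℂ)) y :=
      HasFDerivAt.comp (g := b) (f := fun y : ℂ => ((n : ℝ) + 1)⁻¹ • y) y
        ((hb.differentiable (by simp)) _).hasFDerivAt
        (((n : ℝ) + 1)⁻¹ • ContinuousLinearMap.id ℝ ℂ).hasFDerivAt
    rw [h1.fderiv]
    refine (ContinuousLinearMap.opNorm_comp_le _ _).trans ?_
    have h2 : ‖((n : ℝ) + 1)⁻¹ • ContinuousLinearMap.id ℝ ℂ‖ ≤ 1 := by
      rw [norm_smul, ContinuousLinearMap.norm_id, mul_one, Real.norm_of_nonneg (by positivity)]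
      exact inv_le_one_of_one_le₀ (by linarith [(Nat.cast_nonneg n : (0 : ℝ) ≤ n)])
    calc _ ≤ Cb * 1 := by gcongr; exact hCb _
      _ = Cb := mul_one _
  have hχ1 : ∀ y : ℂ, ∀ᶠ n in atTop, χ n =ᶠ[𝓝 y] fun _ => 1 := by
    intro y
    filter_upwards [tendsto_natCast_atTop_atTop.eventually_ge_atTop ‖y‖] with n hn
    filter_upwards [ball_mem_nhds y one_pos] with x hx
    apply b.one_of_mem_closedBall
    rw [mem_closedBall_zero_iff, norm_smul, Real.norm_of_nonneg (by positivity)]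
    have h1 : ‖x‖ ≤ ‖y‖ + 1 := by
      have := norm_add_le (x - y) y
      rw [mem_ball, dist_eq_norm] at hx
      simp only [sub_add_cancel] at this
      linarith
    change _ ≤ (1 : ℝ)
    rw [inv_mul_le_iff₀ (by positivity)]
    linarith
  let G : ℕ → ℂ → ℂ := fun n y => χ n y • g y
  have hG : ∀ n, ContDiff ℝ 1 (G n) := fun n => (hχ n).smul h.cd
  have hGs : ∀ n, HasCompactSupport (G n) := fun n => (hχs n).smul_right
  have hG1 : ∀ y : ℂ, ∀ᶠ n in atTop, G n =ᶠ[𝓝 y] g := fun y => by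
    filter_upwards [hχ1 y] with n hn
    filter_upwards [hn] with x hx
    simp [G, hx]
  have hGd : ∀ n y, ‖fderiv ℝ (G n) y‖ ≤ (1 + Cb) * A * ((1 + ‖y‖) ^ 2)⁻¹ := by
    intro n y
    have h1 := (((hχ n).differentiable (by simp)) y).hasFDerivAt.smul
      ((h.cd.differentiable (by simp)) y).hasFDerivAt
    have h2 : fderiv ℝ (G n) y = _ := h1.fderiv
    rw [h2]
    refine (norm_add_le _ _).trans ?_
    rw [norm_smul, ContinuousLinearMap.norm_smulRight_apply]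
    have h3 : ‖χ n y‖ ≤ 1 := by
      rw [Real.norm_of_nonneg b.nonneg]; exact b.le_one
    have h4 := h.b0 y
    have h5 := h.b1 y
    have h6 := hχd n y
    calc _ ≤ 1 * (A * ((1 + ‖y‖) ^ 2)⁻¹) + Cb * (A * ((1 + ‖y‖) ^ 2)⁻¹) := by gcongr
      _ = _ := by ring
  have lim1 : Tendsto (fun n => ∫ η : ℂ, (fderiv ℝ (G n) (z - η) 1 +
      I * fderiv ℝ (G n) (z - η) I) / 2 / η) atTop
      (𝓝 (∫ η : ℂ, (fderiv ℝ g (z - η) 1 + I * fderiv ℝ g (z - η) I) / 2 / η)) := by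
    refine tendsto_integral_of_dominated_convergence
      (fun η => (1 + Cb) * A * ((2 + ‖z‖) ^ 2 * Ga 1 η)) (fun n => ?_)
      ((integrable_Ga_one.const_mul _).const_mul _) (fun n => ?_) (ae_of_all _ fun η => ?_)
    · apply Measurable.aestronglyMeasurable
      have hc : Continuous (fun η : ℂ => fderiv ℝ (G n) (z - η)) :=
        ((hG n).continuous_fderiv (by simp)).comp (continuous_const.sub continuous_id)
      refine Measurable.div (Continuous.measurable ?_) measurable_id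
      exact ((hc.clm_apply continuous_const).add
        (continuous_const.mul (hc.clm_apply continuous_const))).div_const _
    · filter_upwards [ae_ne2 z] with η hη
      have h1 := (fderiv ℝ (G n) (z - η)).le_opNorm 1
      have h2 := (fderiv ℝ (G n) (z - η)).le_opNorm I
      have h3 := norm_add_le (fderiv ℝ (G n) (z - η) 1) (I * fderiv ℝ (G n) (z - η) I)
      simp only [norm_one, mul_one, norm_I, norm_mul, one_mul] at h1 h2 h3
      have h4 := hGd n (z - η)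
      have hA := h.nonneg
      rw [norm_div, norm_div, Complex.norm_ofNat, div_eq_inv_mul]
      calc _ ≤ ‖η‖⁻¹ * ((1 + Cb) * A * ((1 + ‖z - η‖) ^ 2)⁻¹) := by gcongr; linarith
        _ = (1 + Cb) * A * (‖η‖⁻¹ * ((1 + ‖z - η‖) ^ 2)⁻¹) := by ring
        _ ≤ _ := mul_le_mul_of_nonneg_left (peetre (mem_ball_self one_pos) hη.1)
          (by positivity)
    · refine tendsto_const_nhds.congr' ?_
      filter_upwards [hG1 (z - η)] with n hn
      rw [hn.fderiv_eq]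
  have lim2 : Tendsto (fun n => ∫ η : ℂ, (fderiv ℝ (G n) (z - η) 1 +
      I * fderiv ℝ (G n) (z - η) I) / 2 / η) atTop (𝓝 (Real.pi * g z)) := by
    refine tendsto_const_nhds.congr' ?_
    filter_upwards [hG1 z] with n hn
    rw [Pool.Agent.Helper366.IV.cauchy_pompeiu (G n) (hG n) (hGs n) z, hn.eq_of_nhds]
  exact tendsto_nhds_unique lim1 lim2

lemma Adm.dbar (h : Adm g A) (w : ℂ) : DT g w 1 + I * DT g w I = 2 * Real.pi * g w := by
  have hi : Integrable (fun η : ℂ => η⁻¹ • fderiv ℝ g (w - η)) := by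
    refine Integrable.mono' ((integrable_Ga_one.const_mul ((2 + ‖w‖) ^ 2)).const_mul A)
      (h.meas w) ?_
    filter_upwards [h.dom w] with η hη using hη w (mem_ball_self one_pos)
  have h1 := hi.apply_continuousLinearMap (1 : ℂ)
  have h2 := hi.apply_continuousLinearMap I
  unfold DT
  rw [ContinuousLinearMap.integral_apply hi, ContinuousLinearMap.integral_apply hi,
    ← integral_const_mul, ← integral_add h1 (h2.const_mul I), mul_assoc, ← h.pompeiu w,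
    ← integral_const_mul]
  congr 1
  ext η
  simp only [ContinuousLinearMap.smul_apply, smul_eq_mul]
  ring

end Pool.Agent.H947Z.HS
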