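import Pool.Agent.H947Z.HS.A

set_option autoImplicit false

namespace Pool.Agent.H947Z.HS

open MeasureTheory Set Filter Topology Metric Complex BoundedContinuousFunction
open scoped ContDiff

/-- the real one-form `h ↦ Re (c h)` -/
noncomputable def om : ℂ →L[ℝ] (ℂ →L[ℝ] ℝ) :=
  (ContinuousLinearMap.compL ℝ ℂ ℂ ℝ reCLM).comp (ContinuousLinearMap.mul ℝ ℂ)

lemma om_apply (c h : ℂ) : om c h = (c * h).re := rfl

lemma norm_om_le (c : ℂ) : ‖om c‖ ≤ ‖c‖ := by
  refine ContinuousLinearMap.opNorm_le_bound _ (norm_nonneg _) fun h => ?_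
  rw [om_apply, ← norm_mul]
  exact abs_re_le_norm _

/-- the field attached to a bounded function -/
noncomputable def Ph (W : ℂ →ᵇ ℂ) (w : ℂ) : ℂ := W w / (sw w : ℂ)

lemma continuous_Ph (W : ℂ →ᵇ ℂ) : Continuous (Ph W) :=
  W.continuous.div (continuous_ofReal.comp continuous_sw) fun w => by
    exact_mod_cast (sw_pos w).ne'

lemma norm_Ph (W : ℂ →ᵇ ℂ) (w : ℂ) : ‖Ph W w‖ ≤ ‖W‖ / sw w := by
  rw [Ph, norm_div, norm_real, Real.norm_of_nonneg (sw_pos w).le]
  gcongr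
  · exact (sw_pos w).le
  · exact W.norm_coe_le_norm w

lemma norm_Ph' (W : ℂ →ᵇ ℂ) (w : ℂ) : ‖Ph W w‖ ≤ ‖W‖ :=
  (norm_Ph W w).trans (div_le_self (norm_nonneg _) (one_le_sw w))

lemma Ph_sub (W W' : ℂ →ᵇ ℂ) (w : ℂ) : Ph (W - W') w = Ph W w - Ph W' w := by
  simp [Ph, sub_div]

/-- the potential -/
noncomputable def pot (W : ℂ →ᵇ ℂ) (w : ℂ) : ℝ := ∫ t in (0 : ℝ)..1, (Ph W (t • w) * w).re

lemma pot_cont (W : ℂ →ᵇ ℂ) (w : ℂ) : Continuous fun t : ℝ => (Ph W (t • w) * w).re :=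
  continuous_re.comp (((continuous_Ph W).comp (continuous_id.smul continuous_const)).mul
    continuous_const)

lemma pot_sub (W W' : ℂ →ᵇ ℂ) (w : ℂ) : pot (W - W') w = pot W w - pot W' w := by
  unfold pot
  rw [← intervalIntegral.integral_sub ((pot_cont W w).intervalIntegrable _ _)
    ((pot_cont W' w).intervalIntegrable _ _)]
  simp [Ph_sub, sub_mul]

lemma pot_bound (W : ℂ →ᵇ ℂ) (w : ℂ) : |pot W w| ≤ 2 * ‖W‖ * sw w := by
  have hn := norm_nonneg w
  have hd : ∀ t ∈ uIcc (0 : ℝ) 1, HasDerivAt (fun t : ℝ => 2 * ‖W‖ * Real.sqrt (1 + t * ‖w‖))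
      (‖W‖ * ‖w‖ / Real.sqrt (1 + t * ‖w‖)) t := by
    intro t ht
    rw [uIcc_of_le zero_le_one] at ht
    have h0 : 0 < 1 + t * ‖w‖ := by have := ht.1; positivity
    have h1 : HasDerivAt (fun t : ℝ => 1 + t * ‖w‖) ‖w‖ t := by
      simpa using ((hasDerivAt_id t).mul_const ‖w‖).const_add 1
    have h2 := (h1.sqrt h0.ne').const_mul (2 * ‖W‖)
    refine h2.congr_deriv ?_
    have := Real.sqrt_pos.2 h0
    field_simp
  have hc : ContinuousOn (fun t : ℝ => ‖W‖ * ‖w‖ / Real.sqrt (1 + t * ‖w‖)) (uIcc (0 : ℝ) 1) := by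
    refine continuousOn_const.div (by fun_prop) fun t ht => ?_
    rw [uIcc_of_le zero_le_one] at ht
    have h0 : 0 < 1 + t * ‖w‖ := by have := ht.1; positivity
    exact (Real.sqrt_pos.2 h0).ne'
  have h1 := intervalIntegral.integral_eq_sub_of_hasDerivAt hd hc.intervalIntegrable
  have h2 : ‖pot W w‖ ≤ ∫ t in (0 : ℝ)..1, ‖W‖ * ‖w‖ / Real.sqrt (1 + t * ‖w‖) := by
    refine intervalIntegral.norm_integral_le_of_norm_le zero_le_one
      (ae_of_all _ fun t ht => ?_) hc.intervalIntegrable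
    refine (abs_re_le_norm _).trans ?_
    rw [norm_mul]
    have h3 := norm_Ph W (t • w)
    rw [sw, norm_smul, Real.norm_of_nonneg ht.1.le] at h3
    calc _ ≤ ‖W‖ / Real.sqrt (1 + t * ‖w‖) * ‖w‖ := by gcongr
      _ = _ := by ring
  rw [h1] at h2
  simp only [one_mul, zero_mul, add_zero, Real.sqrt_one, mul_one] at h2
  have := norm_nonneg W
  rw [Real.norm_eq_abs] at h2
  unfold sw
  linarith

/-- exactness -/
def Ex (W : ℂ →ᵇ ℂ) : Prop := ∀ w, HasFDerivAt (pot W) (om (Ph W w)) w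

lemma Ex_of {W : ℂ →ᵇ ℂ} {φ : ℂ → ℝ} (h : ∀ w, HasFDerivAt φ (om (Ph W w)) w) : Ex W := by
  have : pot W = fun w => φ w - φ 0 := by
    ext w
    have hd : ∀ t ∈ uIcc (0 : ℝ) 1, HasDerivAt (fun t : ℝ => φ (t • w))
        ((Ph W (t • w) * w).re) t := by
      intro t _
      have h1 : HasDerivAt (fun t : ℝ => t • w) w t := by
        simpa using (hasDerivAt_id t).smul_const w
      exact (h (t • w)).comp_hasDerivAt t h1
    have := intervalIntegral.integral_eq_sub_of_hasDerivAt hd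
      ((pot_cont W w).intervalIntegrable _ _)
    simpa [pot] using this
  intro w
  rw [this]
  exact (h w).sub_const _

lemma isClosed_Ex : IsClosed {W : ℂ →ᵇ ℂ | Ex W} := by
  refine isClosed_of_closure_subset fun W hW => ?_
  obtain ⟨u, hu, hlim⟩ := mem_closure_iff_seq_limit.1 hW
  have h0 : Tendsto (fun n => ‖u n - W‖) atTop (𝓝 0) := tendsto_iff_norm_sub_tendsto_zero.1 hlim
  intro w
  refine hasFDerivAt_of_tendstoUniformly (l := atTop) (f := fun n => pot (u n))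
    (f' := fun n w => om (Ph (u n) w)) (g' := fun w => om (Ph W w)) ?_ (fun n => hu n)
    (fun x => ?_) w
  · rw [Metric.tendstoUniformly_iff]
    intro ε hε
    filter_upwards [h0.eventually (gt_mem_nhds hε)] with n hn x
    rw [dist_comm, dist_eq_norm, ← map_sub, ← Ph_sub]
    exact ((norm_om_le _).trans (norm_Ph' _ _)).trans_lt hn
  · rw [tendsto_iff_norm_sub_tendsto_zero]
    refine squeeze_zero (fun n => norm_nonneg _) (fun n => ?_)
      (by simpa using (h0.const_mul 2).mul_const (sw x))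
    rw [← pot_sub]
    exact pot_bound _ _

/-- hypotheses on the nonlinearity -/
structure Nl (f : ℝ → ℝ) (B M : ℝ) : Prop where
  cd : ContDiff ℝ 1 f
  Bpos : 0 < B
  Mpos : 0 ≤ M
  b0 : ∀ t, |f t| ≤ B
  b1 : ∀ t, |deriv f t| ≤ B
  van : ∀ t, t ≤ -M → f t = 0

/-- the candidate solution -/
noncomputable def UU (M : ℝ) (W : ℂ →ᵇ ℂ) (y : ℂ) : ℝ := y.re - (M + 4) + pot W y

/-- the real density -/
noncomputable def densR (f : ℝ → ℝ) (M ε : ℝ) (W : ℂ →ᵇ ℂ) (y : ℂ) : ℝ :=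
  ε * f (UU M W y) * (‖y‖ ^ 2)⁻¹

/-- the density -/
noncomputable def dens (f : ℝ → ℝ) (M ε : ℝ) (W : ℂ →ᵇ ℂ) (y : ℂ) : ℂ := (densR f M ε W y : ℂ)

variable {f : ℝ → ℝ} {B M ε : ℝ} {W : ℂ →ᵇ ℂ}

lemma UU_small (hW : ‖W‖ ≤ 1 / 2) {y : ℂ} (hy : ‖y‖ ≤ 1) : UU M W y ≤ -M - 1 := by
  have h1 := pot_bound W y
  have h2 : sw y ≤ 2 := le_of_sq_le_sq₀' (by norm_num) (by rw [sw_sq]; linarith)
  have h3 := re_le_norm y
  have h4 := le_abs_self (pot W y)
  have h5 : 2 * ‖W‖ * sw y ≤ 1 * 2 := by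
    have := sw_pos y
    gcongr
    linarith
  unfold UU
  linarith

lemma Ex.UU_deriv (h : Ex W) (y : ℂ) : HasFDerivAt (UU M W) (om (1 + Ph W y)) y := by
  have h1 := ((reCLM.hasFDerivAt (x := y)).sub_const (M + 4)).add (h y)
  have h2 : om (1 + Ph W y) = reCLM + om (Ph W y) := by
    refine ContinuousLinearMap.ext fun v => ?_
    simp [om_apply]
  rw [h2]
  exact h1

lemma Ex.UU_cd (h : Ex W) : ContDiff ℝ 1 (UU M W) :=
  contDiff_one_iff_hasFDerivAt.2 ⟨fun y => om (1 + Ph W y),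
    om.continuous.comp (continuous_const.add (continuous_Ph W)), h.UU_deriv⟩

lemma inv_sq_le {y : ℂ} (hy : 1 ≤ ‖y‖) : (‖y‖ ^ 2)⁻¹ ≤ 4 * ((1 + ‖y‖) ^ 2)⁻¹ := by
  rw [← div_eq_mul_inv, inv_eq_one_div, div_le_div_iff₀ (by positivity) (by positivity)]
  nlinarith

lemma Nl.adm (hf : Nl f B M) (hε : 0 < ε) (hW : ‖W‖ ≤ 1 / 2) (h : Ex W) :
    Adm (dens f M ε W) (16 * ε * B) := by
  have hB := hf.Bpos
  have hz : ∀ y : ℂ, ‖y‖ ≤ 1 → densR f M ε W y = 0 := fun y hy => by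
    simp [densR, hf.van _ ((UU_small hW hy).trans (by linarith))]
  have hz' : ∀ y : ℂ, ‖y‖ < 1 → dens f M ε W =ᶠ[𝓝 y] fun _ => 0 := fun y hy => by
    filter_upwards [isOpen_ball.mem_nhds (mem_ball_zero_iff.2 hy)] with x hx
    simp [dens, hz x (mem_ball_zero_iff.1 hx).le]
  refine ⟨?_, by positivity, fun y => ?_, fun y => ?_⟩
  · rw [contDiff_iff_contDiffAt]
    intro y
    rcases lt_or_ge ‖y‖ 1 with hy | hy
    · exact contDiffAt_const.congr_of_eventuallyEq (hz' y hy)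
    · have h1 : ContDiffAt ℝ 1 (densR f M ε W) y :=
        (contDiffAt_const.mul (hf.cd.comp h.UU_cd).contDiffAt).mul
          (((contDiff_norm_sq ℝ).contDiffAt).inv (by positivity))
      exact ofRealCLM.contDiff.contDiffAt.comp y h1
  · rcases le_or_gt ‖y‖ 1 with hy | hy
    · rw [dens, hz y hy]; simp; positivity
    · rw [dens, norm_real, densR, Real.norm_eq_abs, abs_mul, abs_mul, abs_of_pos hε,
        abs_of_pos (by positivity : 0 < (‖y‖ ^ 2)⁻¹)]
      calc _ ≤ ε * B * (4 * ((1 + ‖y‖) ^ 2)⁻¹) := by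
            gcongr
            · exact hf.b0 _
            · exact inv_sq_le hy.le
        _ = 4 * ε * B * ((1 + ‖y‖) ^ 2)⁻¹ := by ring
        _ ≤ _ := by gcongr; norm_num
  · rcases lt_or_ge ‖y‖ 1 with hy | hy
    · rw [(hz' y hy).fderiv_eq]; simp; positivity
    · have n0 : 0 < ‖y‖ := by linarith
      have d1 : HasFDerivAt (fun y => f (UU M W y)) (deriv f (UU M W y) • om (1 + Ph W y)) y :=
        ((hf.cd.differentiable (by simp)) _).hasDerivAt.comp_hasFDerivAt y (h.UU_deriv y)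
      have d2 : HasFDerivAt (fun y : ℂ => ‖y‖ ^ 2) (2 • innerSL ℝ y) y :=
        (hasStrictFDerivAt_norm_sq y).hasFDerivAt
      have d3 := (hasDerivAt_inv (by positivity : ‖y‖ ^ 2 ≠ 0)).comp_hasFDerivAt y d2
      have d4 := (d1.const_mul ε).mul d3
      have d5 := ofRealCLM.hasFDerivAt.comp y d4
      have d6 : fderiv ℝ (dens f M ε W) y = _ := d5.fderiv
      rw [d6]
      refine (ContinuousLinearMap.opNorm_comp_le _ _).trans ?_
      rw [ofRealCLM_norm, one_mul]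
      refine (norm_add_le _ _).trans ?_
      have e1 : ‖om (1 + Ph W y)‖ ≤ 2 := by
        refine (norm_om_le _).trans ((norm_add_le _ _).trans ?_)
        have := norm_Ph' W y
        rw [norm_one]; linarith
      have e2 : ‖(2 • innerSL ℝ y : ℂ →L[ℝ] ℝ)‖ ≤ 2 * ‖y‖ := by
        rw [two_smul]
        refine (norm_add_le _ _).trans ?_
        rw [innerSL_apply_norm]; linarith
      simp only [norm_smul, Function.comp_apply, norm_mul, norm_neg, norm_inv, norm_pow,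
        Real.norm_eq_abs, abs_of_pos hε, abs_norm]
      have e3 := hf.b0 (UU M W y)
      have e4 := hf.b1 (UU M W y)
      have e5 := inv_sq_le hy
      have e6 : ((‖y‖ ^ 2) ^ 2)⁻¹ * (2 * ‖y‖) ≤ 2 * (‖y‖ ^ 2)⁻¹ := by
        rw [← div_eq_inv_mul, ← div_eq_mul_inv, div_le_div_iff₀ (by positivity) (by positivity)]
        nlinarith [pow_pos n0 3]
      calc _ ≤ ε * B * (((‖y‖ ^ 2) ^ 2)⁻¹ * (2 * ‖y‖)) + (‖y‖ ^ 2)⁻¹ * (ε * (B * 2)) := by gcongr
        _ ≤ ε * B * (2 * (‖y‖ ^ 2)⁻¹) + (‖y‖ ^ 2)⁻¹ * (ε * (B * 2)) := by gcongr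
        _ = 4 * ε * B * (‖y‖ ^ 2)⁻¹ := by ring
        _ ≤ 4 * ε * B * (4 * ((1 + ‖y‖) ^ 2)⁻¹) := by gcongr
        _ = _ := by ring

lemma Nl.dens_sub (hf : Nl f B M) (hε : 0 < ε) {W' : ℂ →ᵇ ℂ} (hW : ‖W‖ ≤ 1 / 2)
    (hW' : ‖W'‖ ≤ 1 / 2) (y : ℂ) :
    ‖dens f M ε W y - dens f M ε W' y‖ ≤ 8 * ε * B * ‖W - W'‖ * (sw y ^ 3)⁻¹ := by
  have hB := hf.Bpos
  have hs := sw_pos y
  rcases le_or_gt ‖y‖ 1 with hy | hy
  · simp only [dens, densR, hf.van _ ((UU_small hW hy).trans (by linarith)),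
      hf.van _ ((UU_small hW' hy).trans (by linarith)), sub_self, norm_zero]
    positivity
  · have h1 : |f (UU M W y) - f (UU M W' y)| ≤ B * |UU M W y - UU M W' y| := by
      have := Convex.norm_image_sub_le_of_norm_deriv_le (f := f) (s := univ) (C := B)
        (fun x _ => (hf.cd.differentiable (by simp)) x) (fun x _ => hf.b1 x) convex_univ
        (mem_univ (UU M W' y)) (mem_univ (UU M W y))
      simpa using this
    have h2 : UU M W y - UU M W' y = pot (W - W') y := by rw [pot_sub]; unfold UU; ring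
    rw [h2] at h1
    have h3 := pot_bound (W - W') y
    have h4 := inv_sq_le hy.le
    rw [dens, dens, ← ofReal_sub, norm_real, densR, densR, ← sub_mul, ← mul_sub, Real.norm_eq_abs,
      abs_mul, abs_mul, abs_of_pos hε, abs_of_pos (by positivity : 0 < (‖y‖ ^ 2)⁻¹)]
    calc _ ≤ ε * (B * (2 * ‖W - W'‖ * sw y)) * (4 * ((1 + ‖y‖) ^ 2)⁻¹) := by
          gcongr
          exact h1.trans (by gcongr)
      _ = _ := by rw [← sw_sq]; field_simp; ring

variable {g : ℂ → ℂ} {A : ℝ}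

lemma two_pi_norm : ‖(2 * Real.pi : ℂ)‖ = 2 * Real.pi := by
  rw [norm_mul, norm_real, Real.norm_of_nonneg Real.pi_pos.le]; simp

lemma scaled_bound {c : ℂ} {w : ℂ} {D : ℝ} (hD : 0 ≤ D) (h : ‖c‖ ≤ D / sw w) :
    ‖(sw w : ℂ) * c / (2 * Real.pi)‖ ≤ D / 2 := by
  have hs := sw_pos w
  rw [norm_div, norm_mul, two_pi_norm, norm_real, Real.norm_of_nonneg hs.le]
  rw [le_div_iff₀ hs] at h
  have := Real.pi_gt_three
  rw [div_le_div_iff₀ (by positivity) (by positivity)]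
  nlinarith [mul_nonneg hs.le (norm_nonneg c)]

/-- the new bounded function -/
noncomputable def Adm.next (h : Adm g A) : ℂ →ᵇ ℂ :=
  BoundedContinuousFunction.ofNormedAddCommGroup (fun w => (sw w : ℂ) * T g w / (2 * Real.pi))
    (((continuous_ofReal.comp continuous_sw).mul h.contDiff_T.continuous).div_const _)
    (A * (10 * C0) / 2) fun w =>
      scaled_bound (mul_nonneg h.nonneg (by have := C0_nonneg; positivity))
        (T_bound h.nonneg h.b0' w)

lemma Adm.next_apply (h : Adm g A) (w : ℂ) : h.next w = (sw w : ℂ) * T g w / (2 * Real.pi) := rfl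

lemma Adm.Ph_next (h : Adm g A) : Ph h.next = fun w => (2 * Real.pi : ℂ)⁻¹ • T g w := by
  ext w
  have : (sw w : ℂ) ≠ 0 := by exact_mod_cast (sw_pos w).ne'
  rw [Ph, h.next_apply, smul_eq_mul]
  field_simp

lemma Adm.Ph_deriv (h : Adm g A) (w : ℂ) :
    HasFDerivAt (Ph h.next) ((2 * Real.pi : ℂ)⁻¹ • DT g w) w := by
  rw [h.Ph_next]
  exact (h.hasFDerivAt w).const_smul (2 * Real.pi : ℂ)⁻¹

lemma Adm.Ph_dbar (h : Adm g A) (w : ℂ) :
    fderiv ℝ (Ph h.next) w 1 + I * fderiv ℝ (Ph h.next) w I = g w := by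
  rw [(h.Ph_deriv w).fderiv]
  have h1 := h.dbar w
  have h2 : (2 * Real.pi : ℂ) ≠ 0 := by exact_mod_cast (by positivity : (2 * Real.pi : ℝ) ≠ 0)
  simp only [ContinuousLinearMap.smul_apply, smul_eq_mul]
  rw [mul_left_comm, ← mul_add, h1, ← mul_assoc, inv_mul_cancel₀ h2, one_mul]

lemma lin_eq (L : ℂ →L[ℝ] ℂ) (v : ℂ) : L v = (v.re : ℂ) * L 1 + (v.im : ℂ) * L I := by
  have h : v = v.re • (1 : ℂ) + v.im • I := by simp
  conv_lhs => rw [h]
  rw [map_add, map_smul, map_smul, real_smul, real_smul]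

lemma Adm.Ex_next (h : Adm g A) (hr : ∀ w, (g w).im = 0) : Ex h.next := by
  have hd : ∀ w, HasFDerivAt (fun w => om (Ph h.next w)) (om.comp (fderiv ℝ (Ph h.next) w)) w :=
    fun w => om.hasFDerivAt.comp w (h.Ph_deriv w).differentiableAt.hasFDerivAt
  have hdo : DifferentiableOn ℝ (fun w => om (Ph h.next w)) univ :=
    fun w _ => (hd w).differentiableAt.differentiableWithinAt
  obtain ⟨φ, hφ⟩ := convex_univ.exists_forall_hasFDerivAt_of_fderiv_symmetric isOpen_univ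
    hdo (fun w _ a b => by
      rw [(hd w).fderiv]
      have h1 := congrArg Complex.im (h.Ph_dbar w)
      rw [hr] at h1
      simp only [ContinuousLinearMap.comp_apply, om_apply]
      rw [lin_eq _ a, lin_eq _ b]
      simp at h1 ⊢
      linear_combination (a.im * b.re - a.re * b.im) * h1)
  exact Ex_of fun w => hφ w (mem_univ w)

theorem Nl.solve (hf : Nl f B M) : ∃ ε > (0 : ℝ), ∃ (U : ℂ → ℝ) (Φ : ℂ → ℂ), ContDiff ℝ 1 Φ ∧
    (∀ w, HasFDerivAt U (om (Φ w)) w) ∧ (∀ w, ‖Φ w - 1‖ ≤ 1 / 2) ∧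
    (∀ w, fderiv ℝ Φ w 1 + I * fderiv ℝ Φ w I = ((ε * f (U w) * (‖w‖ ^ 2)⁻¹ : ℝ) : ℂ)) ∧
    (∀ w, ‖w‖ ≤ 1 → U w ≤ 0) ∧ ∀ w, |U w - (w.re - (M + 4))| ≤ sw w := by
  have hB := hf.Bpos
  have hC := C0_nonneg
  set ε := 1 / (160 * B * (C0 + 1)) with hε'
  have hε : 0 < ε := by positivity
  have hεB : 160 * ε * B * C0 ≤ 1 := by
    rw [hε']
    field_simp
    linarith
  let S := {W : ℂ →ᵇ ℂ // ‖W‖ ≤ 1 / 2 ∧ Ex W}
  have hS : IsClosed {W : ℂ →ᵇ ℂ | ‖W‖ ≤ 1 / 2 ∧ Ex W} :=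
    (isClosed_le continuous_norm continuous_const).inter isClosed_Ex
  haveI : CompleteSpace S := hS.completeSpace_coe
  haveI : Nonempty S := ⟨⟨0, by simp, Ex_of (φ := fun _ => 0) fun w => by
    simpa [Ph] using hasFDerivAt_const (0 : ℝ) w⟩⟩
  let F : S → S := fun W => ⟨(hf.adm hε W.2.1 W.2.2).next,
    (BoundedContinuousFunction.norm_ofNormedAddCommGroup_le _ (by positivity) _).trans
      (by linarith),
    (hf.adm hε W.2.1 W.2.2).Ex_next fun w => by simp [dens]⟩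
  have hF : ContractingWith (1 / 2) F := by
    refine ⟨by norm_num, LipschitzWith.of_dist_le_mul fun W W' => ?_⟩
    rw [Subtype.dist_eq, Subtype.dist_eq, dist_eq_norm, dist_eq_norm]
    have hn := norm_nonneg (W.1 - W'.1)
    rw [BoundedContinuousFunction.norm_le (by positivity)]
    intro w
    have a1 := hf.adm hε W.2.1 W.2.2
    have a2 := hf.adm hε W'.2.1 W'.2.2
    have e1 : ((F W).1 - (F W').1) w =
        (sw w : ℂ) * T (fun y => dens f M ε W.1 y - dens f M ε W'.1 y) w / (2 * Real.pi) := by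
      have : T (fun y => dens f M ε W.1 y - dens f M ε W'.1 y) w =
          T (dens f M ε W.1) w - T (dens f M ε W'.1) w := by
        unfold T
        rw [← integral_sub (T_integrable a1.cd.continuous a1.nonneg a1.b0' w)
          (T_integrable a2.cd.continuous a2.nonneg a2.b0' w)]
        simp only [sub_div]
      rw [this]
      change a1.next w - a2.next w = _
      rw [a1.next_apply, a2.next_apply]
      ring
    rw [e1]
    refine (scaled_bound (by positivity)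
      (T_bound (by positivity) (hf.dens_sub hε W.2.1 W'.2.1) w)).trans ?_
    push_cast
    nlinarith
  set W := hF.fixedPoint F with hW
  have hfix : F W = W := hF.fixedPoint_isFixedPt
  have a1 := hf.adm hε W.2.1 W.2.2
  have hfix' : a1.next = W.1 := congrArg Subtype.val hfix
  have hPh : ContDiff ℝ 1 (Ph W.1) := by
    rw [← hfix', a1.Ph_next]
    exact a1.contDiff_T.const_smul _
  refine ⟨ε, hε, UU M W.1, fun w => 1 + Ph W.1 w, contDiff_const.add hPh, W.2.2.UU_deriv,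
    fun w => ?_, fun w => ?_, fun w hw => ?_, fun w => ?_⟩
  · rw [add_sub_cancel_left]
    exact (norm_Ph' _ _).trans W.2.1
  · rw [fderiv_const_add]
    have := a1.Ph_dbar w
    rw [hfix'] at this
    exact this
  · have := UU_small (M := M) W.2.1 hw
    linarith [hf.Mpos]
  · have h1 := pot_bound W.1 w
    have h2 : UU M W.1 w - (w.re - (M + 4)) = pot W.1 w := by unfold UU; ring
    rw [h2]
    refine h1.trans ?_
    have := W.2.1
    have := sw_pos w
    nlinarith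

end Pool.Agent.H947Z.HS
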