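import Pool.Agent.H947Z.HS.B

set_option autoImplicit false

namespace Pool.Agent.H947Z.HS

open Set Filter Topology Metric Complex InnerProductSpace
open scoped ContDiff Laplacian

/-- the linear map to the complex plane -/
noncomputable def LL (c : ℝ) : EuclideanSpace ℝ (Fin 3) →L[ℝ] ℂ :=
  c • (ofRealCLM.comp (EuclideanSpace.proj (0 : Fin 3)) +
    I • ofRealCLM.comp (EuclideanSpace.proj (1 : Fin 3)))

lemma LL_apply (c : ℝ) (x : EuclideanSpace ℝ (Fin 3)) :
    LL c x = (c : ℂ) * ((x 0 : ℂ) + I * (x 1 : ℂ)) := by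
  simp [LL, mul_add]

lemma lin_polar (L : ℂ →L[ℝ] ℂ) (v : ℂ) :
    L v + I * L (v * I) = (starRingEnd ℂ) v * (L 1 + I * L I) := by
  rw [lin_eq L v, lin_eq L (v * I)]
  apply Complex.ext <;> simp <;> ring

lemma exists_nl {f : ℝ → ℝ} (hf : ContDiff ℝ 1 f) (hc : HasCompactSupport f) :
    ∃ B M, Nl f B M := by
  obtain ⟨B0, hB0⟩ := hc.exists_bound_of_continuous hf.continuous
  obtain ⟨B1, hB1⟩ := hc.deriv.exists_bound_of_continuous (hf.continuous_deriv le_rfl)
  obtain ⟨R, hR, hR'⟩ := hc.isCompact.isBounded.exists_pos_norm_lt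
  refine ⟨|B0| + |B1| + 1, R, hf, by positivity, hR.le, fun t => ?_, fun t => ?_, fun t ht => ?_⟩
  · have := hB0 t
    rw [Real.norm_eq_abs] at this
    linarith [le_abs_self B0, abs_nonneg B1]
  · have := hB1 t
    rw [Real.norm_eq_abs] at this
    linarith [le_abs_self B1, abs_nonneg B0]
  · refine image_eq_zero_of_notMem_tsupport fun h => ?_
    have := hR' t h
    rw [Real.norm_eq_abs] at this
    linarith [neg_abs_le t]

theorem main {f : ℝ → ℝ} (hf : ContDiff ℝ 1 f) (hc : HasCompactSupport f) :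
    ∃ u : EuclideanSpace ℝ (Fin 3) → ℝ, ContDiff ℝ 2 u ∧ (∀ x, (Δ u) x = f (u x)) ∧
      (∀ x, fderiv ℝ u x ≠ 0) ∧ (∀ x, 0 < u x → 0 < x 0) ∧ Function.Surjective u ∧
      ¬ ∃ (e : EuclideanSpace ℝ (Fin 3)) (c : ℝ) (V : ℝ → ℝ), ∀ x, u x = V (inner ℝ e x + c) := by
  obtain ⟨B, M, hN⟩ := exists_nl hf hc
  obtain ⟨ε, hε, U, Φ, hΦ, hU, hΦ1, hbar, hneg, hgr⟩ := hN.solve
  set c := Real.sqrt ε⁻¹ with hc'
  have hc0 : 0 < c := Real.sqrt_pos.2 (inv_pos.2 hε)
  have hc2 : c ^ 2 * ε = 1 := by rw [hc', Real.sq_sqrt (inv_pos.2 hε).le, inv_mul_cancel₀ hε.ne']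
  let w : EuclideanSpace ℝ (Fin 3) → ℂ := fun x => exp (LL c x)
  let u : EuclideanSpace ℝ (Fin 3) → ℝ := fun x => U (w x)
  let Ψ : EuclideanSpace ℝ (Fin 3) → ℂ := fun x => Φ (w x) * w x
  have hw : ∀ x, HasFDerivAt w (w x • LL c) x := fun x =>
    (Complex.hasDerivAt_exp (LL c x)).complexToReal_fderiv'.comp x (LL c).hasFDerivAt |>.congr_fderiv
      (by
        ext v
        simp [w, mul_comm]
        try (conv_rhs => rw [← re_add_im (LL c v)])
        try ring)
  have hwc : ContDiff ℝ 1 w := (Complex.contDiff_exp (𝕜 := ℝ)).comp (LL c).contDiff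
  have hΨ : ContDiff ℝ 1 Ψ := (hΦ.comp hwc).mul hwc
  have hu : ∀ x, HasFDerivAt u ((om (Ψ x)).comp (LL c)) x := fun x =>
    ((hU (w x)).comp x (hw x)).congr_fderiv (by ext v; simp [om_apply, Ψ, mul_assoc])
  have hu' : fderiv ℝ u = fun x => (om (Ψ x)).comp (LL c) := funext fun x => (hu x).fderiv
  have hre : ∀ z, 1 / 2 ≤ (Φ z).re := fun z => by
    have h1 := (abs_re_le_norm (Φ z - 1)).trans (hΦ1 z)
    have h2 := neg_abs_le (Φ z - 1).re
    simp only [sub_re, one_re] at h1 h2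
    linarith
  have hsurj : ∀ z : ℂ, z ≠ 0 → ∃ x, w x = z := by
    intro z hz
    refine ⟨!₂[(log z).re / c, (log z).im / c, 0], ?_⟩
    have hc1 : (c : ℂ) ≠ 0 := by exact_mod_cast hc0.ne'
    have : LL c !₂[(log z).re / c, (log z).im / c, 0] = log z := by
      rw [LL_apply]
      apply Complex.ext <;> simp <;> field_simp
    simp only [w, this, exp_log hz]
  have hLs : ∀ z : ℂ, ∃ v, LL c v = z := by
    intro z
    refine ⟨!₂[z.re / c, z.im / c, 0], ?_⟩
    rw [LL_apply]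
    apply Complex.ext <;> simp <;> field_simp
  have hu2 : ContDiff ℝ 2 u := by
    rw [show (2 : WithTop ℕ∞) = (1 : ℕ) + 1 by norm_num, contDiff_succ_iff_hasFDerivAt]
    exact ⟨_, (om.contDiff.comp hΨ).clm_comp contDiff_const, hu⟩
  refine ⟨u, hu2, fun x => ?_, fun x hx => ?_, fun x hx => ?_, fun t => ?_, ?_⟩
  · have hΨd : HasFDerivAt Ψ (Φ (w x) • (w x • LL c) +
        w x • (fderiv ℝ Φ (w x)).comp (w x • LL c)) x :=
      ((((hΦ.differentiable (by simp)) (w x)).hasFDerivAt.comp x (hw x)).mul (hw x))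
    have hD : ∀ a b, fderiv ℝ (fderiv ℝ u) x a b =
        ((Φ (w x) * (w x * LL c a) + w x * fderiv ℝ Φ (w x) (w x * LL c a)) * LL c b).re := by
      intro a b
      have h1 := ((om.hasFDerivAt.comp x hΨd).clm_comp (hasFDerivAt_const (LL c) x)).fderiv
      rw [hu']
      erw [h1]
      simp [om_apply]
      try ring
    rw [laplacian_eq_iteratedFDeriv_orthonormalBasis u (EuclideanSpace.basisFun (Fin 3) ℝ)]
    simp only [iteratedFDeriv_two_apply, Fin.sum_univ_three, Matrix.cons_val_zero,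
      Matrix.cons_val_one, hD, LL_apply, EuclideanSpace.basisFun_apply]
    have h0 : w x ≠ 0 := exp_ne_zero _
    have h1 := lin_polar (fderiv ℝ Φ (w x)) (w x)
    rw [hbar] at h1
    have h2 : fderiv ℝ Φ (w x) (w x * c) = c * fderiv ℝ Φ (w x) (w x) := by
      rw [mul_comm, ← real_smul, map_smul, real_smul]
    have h3 : fderiv ℝ Φ (w x) (w x * (c * I)) = c * fderiv ℝ Φ (w x) (w x * I) := by
      rw [mul_left_comm, ← real_smul, map_smul, real_smul]
    simp only [PiLp.single_apply, Fin.isValue]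
    simp only [Fin.isValue, ↓reduceIte, ofReal_one, Fin.one_eq_zero_iff, OfNat.ofNat_ne_one,
      ofReal_zero, mul_zero, add_zero, mul_one, zero_ne_one, Fin.zero_eq_one_iff, zero_add,
      Fin.reduceEq, zero_re]
    rw [h2, h3, ← add_re]
    have h4 : (Φ (w x) * (w x * c) + w x * (c * fderiv ℝ Φ (w x) (w x))) * c +
        (Φ (w x) * (w x * (c * I)) + w x * (c * fderiv ℝ Φ (w x) (w x * I))) * (c * I) =
        (c : ℂ) ^ 2 * (w x * (fderiv ℝ Φ (w x) (w x) + I * fderiv ℝ Φ (w x) (w x * I))) := by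
      linear_combination (Φ (w x) * w x * c ^ 2) * I_sq
    rw [h4, h1, ← mul_assoc (w x), mul_conj, normSq_eq_norm_sq, ← ofReal_pow, ← ofReal_mul,
      ← ofReal_mul, ofReal_re]
    have h5 : 0 < ‖w x‖ := norm_pos_iff.2 h0
    simp only [u]
    field_simp
    linear_combination f (U (w x)) * hc2
  · obtain ⟨v, hv⟩ := hLs (w x)⁻¹
    have h0 : w x ≠ 0 := exp_ne_zero _
    have h1 := congrArg (fun L : EuclideanSpace ℝ (Fin 3) →L[ℝ] ℝ => L v) hx
    simp only [hu', ContinuousLinearMap.comp_apply, hv, om_apply, Ψ, mul_assoc,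
      mul_inv_cancel₀ h0, mul_one, ContinuousLinearMap.zero_apply] at h1
    linarith [hre (w x)]
  · by_contra h
    have h1 : ‖w x‖ ≤ 1 := by
      simp only [w, Complex.norm_exp, LL_apply]
      rw [Real.exp_le_one_iff]
      simp
      exact mul_nonpos_of_nonneg_of_nonpos hc0.le (not_lt.1 h)
    exact absurd hx (not_lt.2 (hneg _ h1))
  · set s : ℝ := 2 * (|t| + M + 5) with hs
    have hM := hN.Mpos
    have hs0 : 0 < s := by positivity
    obtain ⟨x1, hx1⟩ := hsurj (s : ℂ) (by exact_mod_cast hs0.ne')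
    obtain ⟨x2, hx2⟩ := hsurj (-1 * (s : ℂ)) (by simpa using hs0.ne')
    have sw1 : ∀ z : ℂ, ‖z‖ = s → sw z ≤ 1 + s / 2 := fun z hz =>
      le_of_sq_le_sq₀' (by positivity) (by rw [sw_sq, hz]; nlinarith)
    have b1 := (hgr (s : ℂ)).trans (sw1 _ (by simp [abs_of_pos hs0]))
    have b2 := (hgr (-1 * (s : ℂ))).trans (sw1 _ (by simp [abs_of_pos hs0]))
    have b3 := abs_le.1 b1
    have b4 := abs_le.1 b2
    simp only [ofReal_re, neg_mul, one_mul, neg_re] at b3 b4
    refine intermediate_value_univ x2 x1 hu2.continuous ⟨?_, ?_⟩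
    · simp only [u, hx2, neg_mul, one_mul]
      linarith [neg_abs_le t, b4.2]
    · simp only [u, hx1]
      linarith [le_abs_self t, b3.1]
  · rintro ⟨e, k, V, hV⟩
    obtain ⟨d, hd1, hd2⟩ : ∃ d : EuclideanSpace ℝ (Fin 3), inner ℝ e d = 0 ∧ LL c d ≠ 0 := by
      by_cases he : e 0 = 0 ∧ e 1 = 0
      · refine ⟨!₂[1, 0, 0], ?_, ?_⟩
        · simp [PiLp.inner_apply, Fin.sum_univ_three, he.1]
        · simp [LL_apply, hc0.ne']
      · refine ⟨!₂[-e 1, e 0, 0], ?_, ?_⟩
        · simp [PiLp.inner_apply, Fin.sum_univ_three]; ring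
        · intro h
          rw [LL_apply] at h
          have h1 := congrArg re h
          have h2 := congrArg im h
          simp [hc0.ne'] at h1 h2
          exact he ⟨h2, h1⟩
    obtain ⟨x, hx⟩ := hsurj (LL c d)⁻¹ (inv_ne_zero hd2)
    have h1 : HasDerivAt (fun t : ℝ => x + t • d) d 0 := by
      simpa using ((hasDerivAt_id (0 : ℝ)).smul_const d).const_add x
    have h2 : HasDerivAt (fun t : ℝ => u (x + t • d)) (((om (Ψ x)).comp (LL c)) d) 0 := by
      have := hu (x + (0 : ℝ) • d)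
      have h3 := this.comp_hasDerivAt (0 : ℝ) h1
      rw [zero_smul, add_zero] at h3
      exact h3
    have h3 : (fun t : ℝ => u (x + t • d)) = fun _ => u x := by
      ext t
      rw [hV, hV, inner_add_right, inner_smul_right, hd1, mul_zero, add_zero]
    rw [h3] at h2
    have h4 := h2.unique (hasDerivAt_const _ _)
    simp only [ContinuousLinearMap.comp_apply, om_apply, Ψ, hx, mul_assoc,
      inv_mul_cancel₀ hd2, mul_one] at h4
    linarith [hre (LL c d)⁻¹]

end Pool.Agent.H947Z.HS
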